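import Mathlib
import Pool.Agent.W792.LL.Stm

/-!
Project LL, part MT: almost sure convergence from summable mean differences.
-/

set_option autoImplicit false

namespace Pool.Agent.W583.LL

open MeasureTheory Filter Topology

/-- The deterministic part. -/
theorem det {a p : ℕ → ℝ} (hp : ∀ n, 0 < p n) (hanti : Antitone p)
    (h : ∀ᶠ m in atTop, p m ≤ a m ∧ |a (m + 1) - a m| < p m / 2 ^ m / 4) :
    ∃ L : ℝ, 0 < L ∧ Tendsto a atTop (𝓝 L) := by
  obtain ⟨N, hN⟩ := eventually_atTop.1 h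
  have hd : ∀ n, dist (a (n + N)) (a (n + 1 + N)) ≤ p N / 4 * (1 / 2) ^ n := by
    intro n
    rw [dist_comm, Real.dist_eq]
    have h1 := (hN (n + N) (by omega)).2
    have h2 : n + N + 1 = n + 1 + N := by omega
    rw [h2] at h1
    refine h1.le.trans ?_
    have h3 : p (n + N) ≤ p N := hanti (by omega)
    have h4 : (1 : ℝ) / 2 ^ (n + N) ≤ (1 / 2) ^ n := by
      rw [one_div_pow]
      exact one_div_le_one_div_of_le (by positivity)
        (pow_le_pow_right₀ (by norm_num) (by omega))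
    calc p (n + N) / 2 ^ (n + N) / 4 = p (n + N) / 4 * (1 / 2 ^ (n + N)) := by ring
      _ ≤ p N / 4 * (1 / 2) ^ n := by
        apply mul_le_mul _ h4 (by positivity) (by linarith [hp N])
        linarith
  have hc : CauchySeq fun n => a (n + N) := cauchySeq_of_le_geometric (1 / 2) (p N / 4)
    (by norm_num) hd
  obtain ⟨L, hL⟩ := cauchySeq_tendsto_of_complete hc
  refine ⟨L, ?_, (tendsto_add_atTop_iff_nat N).1 hL⟩
  have h5 := dist_le_of_le_geometric_of_tendsto₀ (1 / 2) (p N / 4) (by norm_num) hd hL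
  rw [Real.dist_eq, zero_add] at h5
  have h6 := (hN N le_rfl).1
  have h7 := (abs_le.1 h5).2
  have h8 := hp N
  have h9 : p N / 4 / (1 - 1 / 2) = p N / 2 := by ring
  rw [h9] at h7
  linarith

section

variable {Ω : Type} [MeasurableSpace Ω] {μ : Measure Ω} [IsProbabilityMeasure μ]
  {P : ℕ → ℝ → Ω → ℝ} {p : ℕ → ℝ}

theorem meas_q (hm : ∀ n, Measurable (Function.uncurry (P n))) (n : ℕ) :
    Measurable fun x : ℝ × Ω => |P (n + 1) x.1 x.2 - P n x.1 x.2| := by
  have h1 : Measurable fun x : ℝ × Ω => P (n + 1) x.1 x.2 := hm (n + 1)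
  have h2 : Measurable fun x : ℝ × Ω => P n x.1 x.2 := hm n
  exact (h1.sub h2).abs

theorem int_q (hm : ∀ n, Measurable (Function.uncurry (P n)))
    (hb : ∀ n, ∃ C : ℝ, ∀ E ω, |P n E ω| ≤ C) (n : ℕ) (E : ℝ) :
    Integrable (fun ω => |P (n + 1) E ω - P n E ω|) μ := by
  obtain ⟨C, hC⟩ := hb n
  obtain ⟨C', hC'⟩ := hb (n + 1)
  have h1 : Measurable fun ω => |P (n + 1) E ω - P n E ω| :=
    (meas_q hm n).comp measurable_prodMk_left
  refine Integrable.of_bound h1.aestronglyMeasurable (C + C') (Eventually.of_forall fun ω => ?_)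
  rw [Real.norm_eq_abs, abs_abs]
  have h2 := hC E ω
  have h3 := hC' E ω
  have h4 := abs_sub (P (n + 1) E ω) (P n E ω)
  linarith

theorem lint_q (hm : ∀ n, Measurable (Function.uncurry (P n)))
    (hb : ∀ n, ∃ C : ℝ, ∀ E ω, |P n E ω| ≤ C)
    (hd : ∀ n : ℕ, ∀ E : ℝ, |E| ≤ n → ∫ ω, |P (n + 1) E ω - P n E ω| ∂μ ≤ p n / 4 ^ n)
    (n : ℕ) (E : ℝ) (hE : |E| ≤ n) :
    ∫⁻ ω, ENNReal.ofReal |P (n + 1) E ω - P n E ω| ∂μ ≤ ENNReal.ofReal (p n / 4 ^ n) := by
  rw [← ofReal_integral_eq_lintegral_ofReal (int_q hm hb n E)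
    (Eventually.of_forall fun ω => abs_nonneg _)]
  exact ENNReal.ofReal_le_ofReal (hd n E hE)

/-- The sections. -/
theorem sec (hm : ∀ n, Measurable (Function.uncurry (P n))) (hp : ∀ n, 0 < p n)
    (hb : ∀ n, ∃ C : ℝ, ∀ E ω, |P n E ω| ≤ C)
    (hd : ∀ n : ℕ, ∀ E : ℝ, |E| ≤ n → ∫ ω, |P (n + 1) E ω - P n E ω| ∂μ ≤ p n / 4 ^ n)
    (hs : ∀ n : ℕ, ∀ E : ℝ, |E| ≤ n → (μ {ω | P n E ω < p n}).toReal ≤ 1 / 4 ^ n) (E : ℝ) :
    ∀ᵐ ω ∂μ, ∀ᶠ m in atTop, p m ≤ P m E ω ∧ |P (m + 1) E ω - P m E ω| < p m / 2 ^ m / 4 := by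
  obtain ⟨n0, hn0⟩ := exists_nat_ge |E|
  let s : ℕ → Set Ω := fun m => {ω | n0 ≤ m ∧ (P m E ω < p m ∨
    p m / 2 ^ m / 4 ≤ |P (m + 1) E ω - P m E ω|)}
  have hμ : ∀ m, μ (s m) ≤ ENNReal.ofReal (5 * (1 / 2) ^ m) := by
    intro m
    by_cases hm0 : n0 ≤ m
    · have hEm : |E| ≤ m := hn0.trans (by exact_mod_cast hm0)
      have h1 : s m ⊆ {ω | P m E ω < p m} ∪
          {ω | p m / 2 ^ m / 4 ≤ |P (m + 1) E ω - P m E ω|} := by
        rintro ω ⟨_, h | h⟩
        · exact Or.inl h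
        · exact Or.inr h
      refine (measure_mono h1).trans ((measure_union_le _ _).trans ?_)
      have h2 : μ {ω | P m E ω < p m} ≤ ENNReal.ofReal ((1 / 2) ^ m) := by
        rw [← ENNReal.ofReal_toReal (measure_ne_top μ {ω | P m E ω < p m})]
        apply ENNReal.ofReal_le_ofReal
        refine (hs m E hEm).trans ?_
        rw [one_div_pow]
        apply one_div_le_one_div_of_le (by positivity)
        exact pow_le_pow_left₀ (by norm_num) (by norm_num) m
      have h3 : μ {ω | p m / 2 ^ m / 4 ≤ |P (m + 1) E ω - P m E ω|} ≤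
          ENNReal.ofReal (4 * (1 / 2) ^ m) := by
        have h4 := mul_meas_ge_le_integral_of_nonneg (μ := μ)
          (f := fun ω => |P (m + 1) E ω - P m E ω|)
          (Eventually.of_forall fun ω => abs_nonneg _) (int_q hm hb m E) (p m / 2 ^ m / 4)
        have h5 := h4.trans (hd m E hEm)
        have hpm := hp m
        have h6 : μ.real {ω | p m / 2 ^ m / 4 ≤ |P (m + 1) E ω - P m E ω|} ≤ 4 * (1 / 2) ^ m := by
          have h7 : 0 < p m / 2 ^ m / 4 := by positivity
          refine le_of_mul_le_mul_left (h5.trans (le_of_eq ?_)) h7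
          have h8 : (4 : ℝ) ^ m = 2 ^ m * 2 ^ m := by rw [← mul_pow]; norm_num
          rw [h8, one_div_pow]
          field_simp
        rw [← ENNReal.ofReal_toReal (measure_ne_top μ
          {ω | p m / 2 ^ m / 4 ≤ |P (m + 1) E ω - P m E ω|})]
        exact ENNReal.ofReal_le_ofReal h6
      refine (add_le_add h2 h3).trans ?_
      rw [← ENNReal.ofReal_add (by positivity) (by positivity)]
      apply ENNReal.ofReal_le_ofReal
      linarith
    · have h1 : s m = ∅ := by
        ext ω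
        constructor
        · rintro ⟨h, _⟩
          exact absurd h hm0
        · intro h
          exact absurd h (Set.notMem_empty ω)
      rw [h1, measure_empty]
      exact zero_le
  have hsum : Summable fun m : ℕ => 5 * ((1 : ℝ) / 2) ^ m :=
    (summable_geometric_of_lt_one (by norm_num) (by norm_num)).mul_left 5
  have hfin : ∑' m, μ (s m) ≠ ⊤ :=
    ne_top_of_le_ne_top hsum.tsum_ofReal_ne_top (ENNReal.tsum_le_tsum hμ)
  filter_upwards [ae_eventually_notMem hfin] with ω hω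
  filter_upwards [hω, eventually_ge_atTop n0] with m hm1 hm2
  by_contra hcon
  apply hm1
  refine ⟨hm2, ?_⟩
  by_cases h1 : P m E ω < p m
  · exact Or.inl h1
  · right
    by_contra h2
    exact hcon ⟨not_lt.1 h1, not_le.1 h2⟩

end

/-- Almost sure convergence from summable mean differences. -/
theorem main : Pool.Agent.W792.LL.S_MT := by
  intro Ω _ μ _ P p hm hp hanti hb hd hs
  -- first part
  have part1 : ∀ B : ℕ, ∀ᵐ ω ∂μ, Summable fun n : ℕ =>
      ∫ E in Set.Icc (-(B : ℝ)) B, |P (n + 1) E ω - P n E ω| := by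
    intro B
    let ν : Measure ℝ := volume.restrict (Set.Icc (-(B : ℝ)) B)
    let F : ℕ → Ω → ENNReal := fun n ω => ∫⁻ E, ENNReal.ofReal |P (n + 1) E ω - P n E ω| ∂ν
    have hFm : ∀ n, Measurable (F n) := fun n =>
      ((meas_q hm n).ennreal_ofReal).lintegral_prod_left'
    have hFi : ∀ n, B ≤ n → ∫⁻ ω, F n ω ∂μ ≤ ENNReal.ofReal (2 * B * p 0 * (1 / 4) ^ n) := by
      intro n hn
      have h1 : ∫⁻ ω, F n ω ∂μ = ∫⁻ E, ∫⁻ ω, ENNReal.ofReal |P (n + 1) E ω - P n E ω| ∂μ ∂ν := by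
        apply lintegral_lintegral_swap
        have h2 : Measurable fun x : Ω × ℝ => (x.2, x.1) := measurable_swap
        exact (((meas_q hm n).ennreal_ofReal).comp h2).aemeasurable
      rw [h1]
      have h3 : ∫⁻ E, ∫⁻ ω, ENNReal.ofReal |P (n + 1) E ω - P n E ω| ∂μ ∂ν ≤
          ∫⁻ _, ENNReal.ofReal (p 0 * (1 / 4) ^ n) ∂ν := by
        apply setLIntegral_mono' measurableSet_Icc
        intro E hE
        have hE' : |E| ≤ n := (abs_le.2 hE).trans (by exact_mod_cast hn)
        refine (lint_q hm hb hd n E hE').trans (ENNReal.ofReal_le_ofReal ?_)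
        rw [one_div_pow, div_eq_mul_one_div]
        exact mul_le_mul_of_nonneg_right (hanti (Nat.zero_le n)) (by positivity)
      refine h3.trans ?_
      have hp0 := hp 0
      rw [lintegral_const]
      have h4 : ν Set.univ = ENNReal.ofReal (2 * B) := by
        change (volume.restrict (Set.Icc (-(B : ℝ)) B)) Set.univ = _
        rw [Measure.restrict_apply_univ, Real.volume_Icc]
        congr 1
        ring
      rw [h4, ← ENNReal.ofReal_mul (by positivity)]
      apply ENNReal.ofReal_le_ofReal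
      apply le_of_eq
      ring
    have hsum : Summable fun n : ℕ => 2 * (B : ℝ) * p 0 * (1 / 4) ^ (n + B) := by
      have h1 : Summable fun n : ℕ => 2 * (B : ℝ) * p 0 * (1 / 4) ^ n :=
        (summable_geometric_of_lt_one (by norm_num) (by norm_num)).mul_left _
      exact (summable_nat_add_iff B).2 h1
    have hG : ∫⁻ ω, ∑' n, F (n + B) ω ∂μ ≠ ⊤ := by
      rw [lintegral_tsum fun n => (hFm (n + B)).aemeasurable]
      exact ne_top_of_le_ne_top hsum.tsum_ofReal_ne_top
        (ENNReal.tsum_le_tsum fun n => hFi (n + B) (by omega))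
    have hGm : Measurable fun ω => ∑' n, F (n + B) ω :=
      Measurable.ennreal_tsum fun n => hFm (n + B)
    filter_upwards [ae_lt_top hGm hG] with ω hω
    have h1 := ENNReal.summable_toReal hω.ne
    rw [← summable_nat_add_iff B]
    refine h1.congr fun n => ?_
    rw [integral_eq_lintegral_of_nonneg_ae (Eventually.of_forall fun E => abs_nonneg _)]
    exact ((meas_q hm (n + B)).comp measurable_prodMk_right).aestronglyMeasurable
  -- second part
  have hms : MeasurableSet {x : ℝ × Ω | ∀ᶠ m in atTop, p m ≤ P m x.1 x.2 ∧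
      |P (m + 1) x.1 x.2 - P m x.1 x.2| < p m / 2 ^ m / 4} := by
    have h1 : {x : ℝ × Ω | ∀ᶠ m in atTop, p m ≤ P m x.1 x.2 ∧
        |P (m + 1) x.1 x.2 - P m x.1 x.2| < p m / 2 ^ m / 4} =
        ⋃ N : ℕ, ⋂ m : ℕ, ⋂ _ : N ≤ m, {x : ℝ × Ω | p m ≤ P m x.1 x.2 ∧
          |P (m + 1) x.1 x.2 - P m x.1 x.2| < p m / 2 ^ m / 4} := by
      ext x
      simp only [Set.mem_setOf_eq, Set.mem_iUnion, Set.mem_iInter, eventually_atTop, ge_iff_le]
    rw [h1]
    refine MeasurableSet.iUnion fun N => MeasurableSet.iInter fun m => MeasurableSet.iInter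
      fun _ => ?_
    have h2 : Measurable fun x : ℝ × Ω => P m x.1 x.2 := hm m
    exact (measurableSet_le measurable_const h2).inter
      (measurableSet_lt (meas_q hm m) measurable_const)
  have part2 : ∀ᵐ ω ∂μ, ∀ᵐ E : ℝ, ∀ᶠ m in atTop, p m ≤ P m E ω ∧
      |P (m + 1) E ω - P m E ω| < p m / 2 ^ m / 4 :=
    (Measure.ae_ae_comm hms).1 (Eventually.of_forall fun E => sec hm hp hb hd hs E)
  have part1' : ∀ᵐ ω ∂μ, ∀ B : ℕ, Summable fun n : ℕ =>
      ∫ E in Set.Icc (-(B : ℝ)) B, |P (n + 1) E ω - P n E ω| := ae_all_iff.2 part1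
  filter_upwards [part1', part2] with ω h1 h2
  refine ⟨h1, ?_⟩
  filter_upwards [h2] with E hE
  exact det hp hanti hE

end Pool.Agent.W583.LL
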